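import Mathlib

namespace Pool.Agent.Results.MP_49fc99_mp.Counter

open Matrix
open scoped ComplexOrder

/-- Operators on `m` qubits. -/
abbrev Op (m : ℕ) := Matrix (Fin (2 ^ m)) (Fin (2 ^ m)) ℂ

/-- A POVM with finite outcome set `S`. -/
def IsPOVM {m : ℕ} {S : Type} [Fintype S] (Q : S → Op m) : Prop :=
  (∀ s, (Q s).PosSemidef) ∧ ∑ s, Q s = 1

/-- The probability `Tr (Q ρ)`. -/
noncomputable def pr {m : ℕ} (Q ρ : Op m) : ℝ := (Q * ρ).trace.re

/-- An `(n, m, p)` quantum random access code. -/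
def IsQRAC (n m : ℕ) (p : ℝ) (ρ : (Fin n → Bool) → Op m) : Prop :=
  (∀ x, (ρ x).PosSemidef ∧ (ρ x).trace = 1) ∧
    ∀ i, ∃ M : Bool → Op m, IsPOVM M ∧ ∀ x, p ≤ pr (M (x i)) (ρ x)

noncomputable def blk (t x y z a b : ℝ) : Matrix (Fin 4) (Fin 4) ℂ :=
  !![t + z, x - y * Complex.I, 0, 0; x + y * Complex.I, t - z, 0, 0; 0, 0, a, 0; 0, 0, 0, b]

theorem blk_psd {t x y z a b : ℝ} (h : x ^ 2 + y ^ 2 + z ^ 2 ≤ t ^ 2)
    (ht : 0 < t + z ∨ (t = 0 ∧ x = 0 ∧ y = 0 ∧ z = 0)) (ha : 0 ≤ a) (hb : 0 ≤ b) :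
    (blk t x y z a b).PosSemidef := by
  refine PosSemidef.of_dotProduct_mulVec_nonneg ?_ fun v => ?_
  · ext i j
    fin_cases i <;> fin_cases j <;> simp [blk, Complex.ext_iff]
  · rw [Complex.nonneg_iff]
    simp only [blk, dotProduct, mulVec, Fin.sum_univ_four]
    simp
    refine ⟨?_, by ring⟩
    have h2 := mul_nonneg ha (add_nonneg (mul_self_nonneg (v 2).re) (mul_self_nonneg (v 2).im))
    have h3 := mul_nonneg hb (add_nonneg (mul_self_nonneg (v 3).re) (mul_self_nonneg (v 3).im))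
    rcases ht with ht | ⟨rfl, rfl, rfl, rfl⟩
    · have h4 : 0 ≤ (t + z) * ((v 0).re ^ 2 + (v 0).im ^ 2) +
          (t - z) * ((v 1).re ^ 2 + (v 1).im ^ 2) +
          2 * ((v 0).re * (x * (v 1).re + y * (v 1).im) +
            (v 0).im * (x * (v 1).im - y * (v 1).re)) := by
        refine nonneg_of_mul_nonneg_right ?_ ht
        nlinarith [sq_nonneg ((t + z) * (v 0).re + (x * (v 1).re + y * (v 1).im)),
          sq_nonneg ((t + z) * (v 0).im + (x * (v 1).im - y * (v 1).re)),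
          mul_nonneg (sub_nonneg.2 h) (add_nonneg (sq_nonneg (v 1).re) (sq_nonneg (v 1).im))]
      nlinarith
    · nlinarith

theorem tr_blk (t x y z a b t' x' y' z' a' b' : ℝ) :
    (blk t x y z a b * blk t' x' y' z' a' b').trace.re =
      2 * (t * t' + x * x' + y * y' + z * z') + a * a' + b * b' := by
  simp [blk, trace, Fin.sum_univ_four]
  ring

theorem tr_Q {Q : Matrix (Fin 4) (Fin 4) ℂ} (hQ : Q.PosSemidef) (t x y z : ℝ) :
    (Q * blk t x y z 0 0).trace.re = t * ((Q 0 0).re + (Q 1 1).re) + x * (2 * (Q 0 1).re) +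
      y * (-2 * (Q 0 1).im) + z * ((Q 0 0).re - (Q 1 1).re) := by
  have h : Q 1 0 = star (Q 0 1) := (hQ.1.apply 1 0).symm
  simp [blk, trace, Matrix.mul_apply, Fin.sum_univ_four, h]
  ring

theorem cone {Q : Matrix (Fin 4) (Fin 4) ℂ} (hQ : Q.PosSemidef) (s₁ s₂ s₃ : ℝ)
    (h₁ : s₁ = 1 ∨ s₁ = -1) (h₂ : s₂ = 1 ∨ s₂ = -1) (h₃ : s₃ = 1 ∨ s₃ = -1) :
    s₁ * (2 * (Q 0 1).re) + s₂ * (-2 * (Q 0 1).im) + s₃ * ((Q 0 0).re - (Q 1 1).re) ≤
      87 / 50 * ((Q 0 0).re + (Q 1 1).re) := by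
  have h : Q 1 0 = star (Q 0 1) := (hQ.1.apply 1 0).symm
  have h0 := (Complex.nonneg_iff.1 (hQ.diag_nonneg (i := 1))).1
  have h1 := (Complex.nonneg_iff.1 (hQ.dotProduct_mulVec_nonneg
    ![((87 / 50 - s₃ : ℝ) : ℂ), -(s₁ + s₂ * Complex.I), 0, 0])).1
  simp only [dotProduct, mulVec, Fin.sum_univ_four, h] at h1
  simp at h1
  rcases h₁ with rfl | rfl <;> rcases h₂ with rfl | rfl <;> rcases h₃ with rfl | rfl <;>
    linarith

def e3 : (Fin 3 → Bool) ≃ Bool × Bool × Bool where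
  toFun y := (y 0, y 1, y 2)
  invFun p := ![p.1, p.2.1, p.2.2]
  left_inv y := by ext i; fin_cases i <;> rfl
  right_inv _ := rfl

theorem sum8 {A : Type} [AddCommMonoid A] (f : (Fin 3 → Bool) → A) :
    ∑ y, f y = ∑ a, ∑ b, ∑ c, f ![a, b, c] := by
  rw [← e3.symm.sum_comp, Fintype.sum_prod_type]
  exact Finset.sum_congr rfl fun a _ => Fintype.sum_prod_type _

noncomputable def co (a b c : Bool) : ℝ :=
  (if a then -1 else 1) * (if a = b ∨ a = c then 10 / 33 else 17 / 66)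

noncomputable def st (a b c : Bool) : Matrix (Fin 4) (Fin 4) ℂ :=
  if a = b ∧ b = c then blk 0 0 0 0 (if a then 0 else 1) (if a then 1 else 0)
  else blk (1 / 2) (co a b c) (co b a c) (co c a b) 0 0

noncomputable def ms (x y z : ℝ) (b : Bool) : Matrix (Fin 4) (Fin 4) ℂ :=
  if b then blk (1 / 2) (-x) (-y) (-z) 0 1 else blk (1 / 2) x y z 1 0

theorem ms_povm {x y z : ℝ} (h : x ^ 2 + y ^ 2 + z ^ 2 ≤ (1 / 2) ^ 2) (h1 : 0 < 1 / 2 + z)
    (h2 : 0 < 1 / 2 + -z) : IsPOVM (m := 2) (ms x y z) := by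
  refine ⟨fun b => ?_, ?_⟩
  · cases b
    · exact blk_psd h (Or.inl h1) zero_le_one le_rfl
    · exact blk_psd (by simpa using h) (Or.inl h2) le_rfl zero_le_one
  · rw [Fintype.sum_bool]
    change blk (1 / 2) (-x) (-y) (-z) 0 1 + blk (1 / 2) x y z 1 0 = (1 : Matrix (Fin 4) (Fin 4) ℂ)
    ext i j
    fin_cases i <;> fin_cases j <;> simp [blk] <;> ring

theorem qrac : IsQRAC 3 2 (159 / 200) fun x => st (x 0) (x 1) (x 2) := by
  refine ⟨fun x => ?_, fun i => ?_⟩
  · change (st (x 0) (x 1) (x 2)).PosSemidef ∧ (st (x 0) (x 1) (x 2)).trace = 1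
    generalize x 0 = a; generalize x 1 = b; generalize x 2 = c
    cases a <;> cases b <;> cases c <;> simp only [st, co] <;>
      refine ⟨blk_psd (by norm_num) (by norm_num) (by norm_num) (by norm_num), ?_⟩ <;>
      simp [blk, trace, Fin.sum_univ_four] <;> norm_num
  have key : ∀ (x y z : ℝ) (d a b c : Bool), pr (m := 2) (ms x y z d) (st a b c) =
      (ms x y z d * st a b c).trace.re := fun _ _ _ _ _ _ _ => rfl
  fin_cases i
  · refine ⟨ms (99 / 200) (-7 / 200) (-7 / 200),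
      ms_povm (by norm_num) (by norm_num) (by norm_num), fun x => ?_⟩
    change _ ≤ pr (m := 2) (ms _ _ _ (x 0)) (st (x 0) (x 1) (x 2))
    generalize x 0 = a; generalize x 1 = b; generalize x 2 = c
    cases a <;> cases b <;> cases c <;> rw [key] <;> simp [ms, st, co, tr_blk] <;> norm_num
  · refine ⟨ms (-7 / 200) (99 / 200) (-7 / 200),
      ms_povm (by norm_num) (by norm_num) (by norm_num), fun x => ?_⟩
    change _ ≤ pr (m := 2) (ms _ _ _ (x 1)) (st (x 0) (x 1) (x 2))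
    generalize x 0 = a; generalize x 1 = b; generalize x 2 = c
    cases a <;> cases b <;> cases c <;> rw [key] <;> simp [ms, st, co, tr_blk] <;> norm_num
  · refine ⟨ms (-7 / 200) (-7 / 200) (99 / 200),
      ms_povm (by norm_num) (by norm_num) (by norm_num), fun x => ?_⟩
    change _ ≤ pr (m := 2) (ms _ _ _ (x 2)) (st (x 0) (x 1) (x 2))
    generalize x 0 = a; generalize x 1 = b; generalize x 2 = c
    cases a <;> cases b <;> cases c <;> rw [key] <;> simp [ms, st, co, tr_blk] <;> norm_num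

theorem no_povm (Q : (Fin 3 → Bool) → Matrix (Fin 4) (Fin 4) ℂ) (hQ : ∀ y, (Q y).PosSemidef)
    (h1 : ∑ y, Q y = 1) (h : ∀ (x : Fin 3 → Bool) (i : Fin 3),
      ∑ y, (if y i ≠ x i then (Q y * st (x 0) (x 1) (x 2)).trace.re else 0) ≤ 6519 / 20000) :
    False := by
  have s0 := congrArg (fun M : Matrix (Fin 4) (Fin 4) ℂ => (M 0 0).re + (M 1 1).re) h1
  simp only [sum8, Fintype.sum_bool, Matrix.add_apply, Complex.add_re, one_apply_eq,
    Complex.one_re] at s0
  have c := fun a b c : Bool => cone (hQ ![a, b, c]) (if a then -1 else 1) (if b then -1 else 1)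
    (if c then -1 else 1) (by cases a <;> simp) (by cases b <;> simp) (by cases c <;> simp)
  have g : ∀ a b c : Bool, ¬ (a = b ∧ b = c) → ∀ i : Fin 3, ∑ y, (if y i ≠ ![a, b, c] i then
      1 / 2 * ((Q y 0 0).re + (Q y 1 1).re) + co a b c * (2 * (Q y 0 1).re) +
      co b a c * (-2 * (Q y 0 1).im) + co c a b * ((Q y 0 0).re - (Q y 1 1).re) else 0) ≤
      6519 / 20000 := by
    intro a b c hn i
    have := h ![a, b, c] i
    simp only [cons_val_zero, cons_val_one, cons_val, st, if_neg hn, tr_Q (hQ _)] at this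
    exact this
  have g' := fun a b c hn => And.intro (g a b c hn 0) (And.intro (g a b c hn 1) (g a b c hn 2))
  have a1 := g' true false false (by simp)
  have a2 := g' false true false (by simp)
  have a3 := g' false false true (by simp)
  have a4 := g' false true true (by simp)
  have a5 := g' true false true (by simp)
  have a6 := g' true true false (by simp)
  have c1 := c true true true
  have c2 := c true true false
  have c3 := c true false true
  have c4 := c true false false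
  have c5 := c false true true
  have c6 := c false true false
  have c7 := c false false true
  have c8 := c false false false
  clear c g g' h h1 hQ
  simp [sum8, co] at a1 a2 a3 a4 a5 a6 c1 c2 c3 c4 c5 c6 c7 c8
  linarith [a1.1, a1.2.1, a1.2.2, a2.1, a2.2.1, a2.2.2, a3.1, a3.2.1, a3.2.2, a4.1, a4.2.1,
    a4.2.2, a5.1, a5.2.1, a5.2.2, a6.1, a6.2.1, a6.2.2]

/-- A `(3, 2, 159/200)`-QRAC for which no single POVM decodes every bit of every string with error
at most `2 p (1 - p)`. -/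
theorem result : ∃ (n m : ℕ) (p : ℝ) (ρ : (Fin n → Bool) → Op m), 1 ≤ n ∧ 1 ≤ m ∧ 1 / 2 < p ∧
    p ≤ 1 ∧ IsQRAC n m p ρ ∧ ¬ ∃ Q : (Fin n → Bool) → Op m, IsPOVM Q ∧
      ∀ x i, ∑ y, (if y i ≠ x i then pr (Q y) (ρ x) else 0) ≤ 2 * p * (1 - p) := by
  refine ⟨3, 2, 159 / 200, _, by norm_num, by norm_num, by norm_num, by norm_num, qrac, ?_⟩
  rintro ⟨Q, hQ, h⟩
  exact no_povm Q hQ.1 hQ.2 fun x i => (h x i).trans (by norm_num)

end Pool.Agent.Results.MP_49fc99_mp.Counter
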